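import Pool.Agent.W495.TA.Defs

/-!
# Towers of factors of abelian varieties over finite fields: definitions
-/

set_option autoImplicit false

namespace Pool.Agent.K3h98.TW

open NumberField Module Pool.Agent.H204R3.CM Pool.Agent.W547.KB Pool.Agent.W495.TA

/-- The automorphism `g` of the field of complex numbers is the identity on all the fields `φ (E)`, `φ`
a complex embedding of `E`. -/
def Fixes (g : ℂ ≃+* ℂ) (E : Type) [Field E] : Prop := ∀ (φ : E →+* ℂ) (x : E), g (φ x) = φ x

/-- A function on the complex embeddings of `E` is odd if complex conjugation changes its sign. -/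
def IsOdd {E : Type} [Field E] (m : (E →+* ℂ) → ℚ) : Prop :=
  ∀ φ, m (ComplexEmbedding.conjugate φ) = -m φ

/-- The field `E` is irreducible: the space of the odd functions on the complex embeddings of `E`, with
rational values, has no proper nonzero subspace that is stable under the automorphisms of the field of
complex numbers. -/
def IsIrreducibleCM (E : Type) [Field E] : Prop :=
  ∀ W : Submodule ℚ ((E →+* ℂ) → ℚ), (∀ m ∈ W, IsOdd m) →
    (∀ g : ℂ ≃+* ℂ, ∀ m ∈ W, (fun φ : E →+* ℂ => m ((g : ℂ →+* ℂ).comp φ)) ∈ W) →
      W = ⊥ ∨ ∀ m : (E →+* ℂ) → ℚ, IsOdd m → m ∈ W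

/-- The field `E` is free over the fixed field of the set `G` of automorphisms: there is no nonzero odd
function on its complex embeddings that is invariant under the automorphisms in `G`. -/
def IsFree (E : Type) [Field E] (G : Set (ℂ ≃+* ℂ)) : Prop :=
  ∀ m : (E →+* ℂ) → ℚ, IsOdd m → (∀ g ∈ G, ∀ φ, m ((g : ℂ →+* ℂ).comp φ) = m φ) → m = 0

/-- The field `E` has degree `2 q`, where `q` is an odd prime number, and it does not contain a square
root of a negative rational number (an imaginary quadratic field). -/
def IsPrimeCM (E : Type) [Field E] [NumberField E] (q : ℕ) : Prop :=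
  q.Prime ∧ q ≠ 2 ∧ finrank ℚ E = 2 * q ∧ ∀ (x : E) (r : ℚ), x ^ 2 = (r : E) → 0 ≤ r

/-- The degree of the number field `E` is a power of two, greater than one, and some automorphism of the
field of complex numbers permutes the complex embeddings of `E` in one cycle (for instance, `E` is a
cyclic extension of the rational numbers of such a degree). -/
def IsTwoPowerCycle (E : Type) [Field E] [NumberField E] : Prop :=
  (∃ n : ℕ, finrank ℚ E = 2 ^ (n + 1)) ∧
    ∃ g : ℂ ≃+* ℂ, ∀ φ ψ : E →+* ℂ, ∃ k : ℕ, (fun χ : E →+* ℂ => (g : ℂ →+* ℂ).comp χ)^[k] φ = ψ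

variable {p : ℕ} [Fact p.Prime] {ν : PadicAlgCl p ≃+* ℂ}

/-- The Frobenius eigenvalue of the factor `i` that belongs to the embedding `φ`. -/
def ev (Z : RedAV p ν) (i : Z.X.I) (φ : (Z.X.factor i).E →+* ℂ) : ℂ := φ (Z.π i)

/-- The degree of the CM field of the factor `i`, twice the dimension. -/
noncomputable def dg (Z : RedAV p ν) (i : Z.X.I) : ℕ := finrank ℚ (Z.X.factor i).E

/-- The factor is supersingular: the eigenvalues are, up to roots of unity, square roots of the number of
elements of the ground field. -/
def IsSS (Z : RedAV p ν) (i : Z.X.I) : Prop :=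
  ∃ s : ℕ, 0 < s ∧ ∀ φ, ev Z i φ ^ (2 * s) = ((p : ℂ) ^ Z.a) ^ s

/-- The CM fields of the factors `i` and `k` have the same Galois closure in the field of complex
numbers. -/
def SameClosure (Z : RedAV p ν) (i k : Z.X.I) : Prop :=
  IntermediateField.normalClosure ℚ (Z.X.factor i).E ℂ =
    IntermediateField.normalClosure ℚ (Z.X.factor k).E ℂ

/-- The CM field of the factor `i` is normal over the rational numbers. -/
def IsNormal (Z : RedAV p ν) (i : Z.X.I) : Prop := IsGalois ℚ (Z.X.factor i).E

/-- The factors `i` and `k` form an exceptional pair: either their CM fields are two non-Galois quartic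
fields with the same Galois closure, or these are an imaginary quadratic field and a field of degree
eight; and, for an eigenvalue `α` of the first factor and two eigenvalues `β`, `β'` of the second one
that belong to embeddings that are neither equal nor complex conjugate, `β β'` is, up to a root of unity,
the product of `α` and of a square root of the number of elements of the ground field. -/
def IsExc (Z : RedAV p ν) (i k : Z.X.I) : Prop :=
  ((dg Z i = 4 ∧ dg Z k = 4 ∧ ¬ IsNormal Z i ∧ ¬ IsNormal Z k ∧ SameClosure Z i k) ∨
    (dg Z i = 2 ∧ dg Z k = 8)) ∧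
  ∃ ψ φ φ', φ' ≠ φ ∧ φ' ≠ ComplexEmbedding.conjugate φ ∧ ∃ s : ℕ, 0 < s ∧
    (ev Z k φ * ev Z k φ') ^ (2 * s) = (ev Z i ψ ^ 2 * (p : ℂ) ^ Z.a) ^ s

open Classical in
/-- The basis of a tower: the sum of the dimensions of the factors in `S` is at most five, and no two of
them form an exceptional pair; or the factors in `S` have dimension at most three, and any two of them
whose CM fields have the same Galois closure have Galois CM fields or one of them is supersingular. (The
empty set satisfies this.) -/
def IsBase (Z : RedAV p ν) (S : Set Z.X.I) : Prop :=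
  ((∑ i, if i ∈ S then dg Z i else 0) ≤ 10 ∧ ∀ i ∈ S, ∀ k ∈ S, i ≠ k → ¬ IsExc Z i k) ∨
    ((∀ i ∈ S, dg Z i ≤ 6) ∧ ∀ i ∈ S, ∀ k ∈ S, i ≠ k → SameClosure Z i k →
      IsNormal Z i ∨ IsSS Z i ∨ IsSS Z k)

/-- The factor `i` has only trivial relations: if `e` are the exponents of a relation between its
eigenvalues (the product is a square root of a power of the number of elements of the ground field, up
to a root of unity) then complex conjugate eigenvalues have the same exponents. -/
def IsNeat (Z : RedAV p ν) (i : Z.X.I) : Prop :=
  ∀ e : ((Z.X.factor i).E →+* ℂ) → ℕ,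
    (∃ s : ℕ, 0 < s ∧ (∏ φ, ev Z i φ ^ e φ) ^ (2 * s) = ((p : ℂ) ^ Z.a) ^ (s * ∑ φ, e φ)) →
      ∀ φ, e φ = e (ComplexEmbedding.conjugate φ)

/-- The automorphisms of the field of complex numbers that are the identity on all conjugates of the CM
fields of the factors in `F`. -/
def Fix (Z : RedAV p ν) (F : Set Z.X.I) : Set (ℂ ≃+* ℂ) :=
  {g | ∀ k ∈ F, Fixes g (Z.X.factor k).E}

/-- The set `F` of factors is a tower: it is the basis of a tower, or it is obtained from a tower by the
adjunction of a factor with only trivial relations whose CM field is free over the CM fields of the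
tower. -/
inductive IsTower (Z : RedAV p ν) : Set Z.X.I → Prop
  | base (S : Set Z.X.I) : IsBase Z S → IsTower Z S
  | step (F : Set Z.X.I) (i : Z.X.I) : IsTower Z F → i ∉ F → IsNeat Z i →
      IsFree (Z.X.factor i).E (Fix Z F) → IsTower Z (insert i F)

/-- The factor `i` of `Y` is, over an algebraic closure, isogenous to a power of the factor `k` of `Z`:
an embedding of the CM fields takes a power of the Frobenius endomorphism to a power of the Frobenius
endomorphism, for the same extension of the ground fields. -/
def IsPower (Y Z : RedAV p ν) (i : Y.X.I) (k : Z.X.I) : Prop :=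
  ∃ (ι : (Z.X.factor k).E →+* (Y.X.factor i).E) (s t : ℕ), 0 < s ∧ 0 < t ∧
    Y.a * s = Z.a * t ∧ (Y.π i) ^ s = ι ((Z.π k) ^ t)

/-- The abelian variety `Y` is, over an algebraic closure, isogenous to a product of a supersingular
abelian variety and of powers of the factors of an abelian variety `Z` whose factors form a tower. -/
def IsTowerAV (Y : RedAV p ν) : Prop :=
  ∃ Z : RedAV p ν, IsTower Z Set.univ ∧ ∀ i, IsSS Y i ∨ ∃ k, IsPower Y Z i k

/-- Criteria for towers. Let `F` be a tower of factors of `Z` and let `i` be a factor that is not
supersingular, with the CM field `E`. Then `i` can be adjoined to the tower in each of the following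
cases:

* `E` is irreducible, and some automorphism of the field of complex numbers which is the identity on the
  conjugates of the CM fields of the factors in `F` is not the identity on some `φ (E)`;
* `E` has degree `2 q`, with an odd prime number `q`, it contains no imaginary quadratic field, and the
  CM fields of the factors in `F` have degrees less than `2 q`.

CM fields of degree `2 q`, with an odd prime number `q`, without imaginary quadratic subfields, and CM
fields of two-power degree whose embeddings are permuted in one cycle by some automorphism of the field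
of complex numbers, are irreducible. -/
def TowerCriteria : Prop :=
  (∀ (p : ℕ) [Fact p.Prime] (ν : PadicAlgCl p ≃+* ℂ) (Z : RedAV p ν) (F : Set Z.X.I) (i : Z.X.I),
    IsTower Z F → i ∉ F → ¬ IsSS Z i →
      ((IsIrreducibleCM (Z.X.factor i).E ∧ ∃ g ∈ Fix Z F, ¬ Fixes g (Z.X.factor i).E) ∨
        ∃ q : ℕ, IsPrimeCM (Z.X.factor i).E q ∧ ∀ k ∈ F, dg Z k < 2 * q) →
      IsTower Z (insert i F)) ∧
  ∀ (E : Type) [Field E] [NumberField E] [IsCMField E],
    (∃ q, IsPrimeCM E q) ∨ IsTwoPowerCycle E → IsIrreducibleCM E

end Pool.Agent.K3h98.TW
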