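import Pool.Agent.K3h98.TW.Defs
import Pool.Agent.W495.FM.HomDefs

/-!
# Schemes over finite fields generated by towers: definitions
-/

set_option autoImplicit false

namespace Pool.Agent.K3h98.TW

open Pool.Agent.W495.TA Pool.Agent.W495.FM

/-- The groups of motivic and of `ℓ`-adic homology of `X` are those of an abelian variety `Y` which is
isogenous, over an algebraic closure, to a product of a supersingular abelian variety and of powers of
the factors of an abelian variety whose factors form a tower. -/
def IsTowerAbelian (p : ℕ) [Fact p.Prime] (ν : PadicAlgCl p ≃+* ℂ) {Ω V : Type} [Field Ω]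
    [CharZero Ω] (T : Homology Ω V) (X : V) : Prop :=
  ∃ (Y : RedAV p ν) (C : Cycles Ω Y) (D : Motivic C) (g : ℕ), IsTowerAV Y ∧ IsChow C ∧
    IsMotivic D ∧ IsAbelian T X D g

end Pool.Agent.K3h98.TW
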