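import Pool.Agent.K3h98.IT.Crit
import Pool.Agent.K3h98.TW.MotDefs

/-!
# Towers of factors of abelian varieties over finite fields: proofs
-/

set_option autoImplicit false

namespace Pool.Agent.K3h98.TW

open NumberField Module Pool.Agent.H204R3.CM Pool.Agent.W547.KB Pool.Agent.W495.TA
  Pool.Agent.W495.FM Pool.Agent.TH117.BL Pool.Agent.TH117.GN

variable {p : ℕ} [Fact p.Prime] {ν : PadicAlgCl p ≃+* ℂ}

theorem ss_iff (Z : RedAV p ν) (i : Z.X.I) : IsSS Z i ↔ Pool.Agent.W495.TC.IsSupersingular Z i := by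
  constructor
  · rintro ⟨s, hs, h⟩
    refine ⟨s, hs, ?_⟩
    obtain ⟨φ⟩ := IT.exists_emb (Z.X.factor i).E
    apply φ.injective
    rw [map_pow, map_pow, map_pow, map_natCast]
    exact h φ
  · rintro ⟨s, hs, h⟩
    refine ⟨s, hs, fun φ => ?_⟩
    have h1 := congrArg φ h
    rw [map_pow, map_pow, map_pow, map_natCast] at h1
    exact h1

theorem good_of_base (Z : RedAV p ν) (S : Set Z.X.I) (h : IsBase Z S) : IsGoodSet Z S := by
  classical
  rcases h with ⟨h1, h2⟩ | ⟨h1, h2⟩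
  · left
    refine ⟨?_, ?_⟩
    · refine le_of_eq_of_le (Finset.sum_congr rfl fun k _ => ?_) h1
      by_cases hk : k ∈ S
      · rw [if_pos hk, if_pos hk]
        rfl
      · rw [if_neg hk, if_neg hk]
    · rintro i hi k hk hik ⟨h3, ψ, φ, φ', s, h4, h5, h6, h7⟩
      apply h2 i hi k hk hik
      refine ⟨?_, ψ, φ, φ', h4, h5, s, h6, h7⟩
      exact h3
  · right
    refine ⟨h1, fun i hi k hk hcl => ?_⟩
    by_cases hik : i = k
    · subst hik
      exact Or.inr (Or.inr (Or.inr ⟨RingEquiv.refl _, 1, one_pos, rfl⟩))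
    · rcases h2 i hi k hk hik hcl with h3 | h3 | h3
      · exact Or.inl h3
      · exact Or.inr (Or.inl ((ss_iff Z i).1 h3))
      · exact Or.inr (Or.inr (Or.inl ((ss_iff Z k).1 h3)))

/-- The extension of exponents by zero. -/
theorem neat_iff (Z : RedAV p ν) (i : Z.X.I) : IsNeat Z i ↔ IT.IsNondegenerate Z i := by
  classical
  have key : ∀ e : Emb Z → ℕ, (∀ w, w.1 ≠ i → e w = 0) →
      (IsRel Z e ↔ ∃ s : ℕ, 0 < s ∧ (∏ φ, ev Z i φ ^ e ⟨i, φ⟩) ^ (2 * s) =
        ((p : ℂ) ^ Z.a) ^ (s * ∑ φ, e ⟨i, φ⟩)) := by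
    intro e he
    have h1 : ∏ w, eig Z w ^ e w = ∏ φ, ev Z i φ ^ e ⟨i, φ⟩ := by
      rw [Fintype.prod_sigma, Finset.prod_eq_single i]
      · rfl
      · intro k _ hk
        refine Finset.prod_eq_one fun φ _ => ?_
        rw [he ⟨k, φ⟩ hk, pow_zero]
      · intro h
        exact absurd (Finset.mem_univ i) h
    have h2 : ∑ w, e w = ∑ φ, e ⟨i, φ⟩ := by
      rw [Fintype.sum_sigma, Finset.sum_eq_single i]
      · intro k _ hk
        exact Finset.sum_eq_zero fun φ _ => he ⟨k, φ⟩ hk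
      · intro h
        exact absurd (Finset.mem_univ i) h
    unfold IsRel
    rw [h1, h2]
  constructor
  · intro h e he hsupp φ
    exact h (fun φ => e ⟨i, φ⟩) ((key e hsupp).1 he) φ
  · intro h e he φ
    let e' : Emb Z → ℕ := fun w => if hw : w.1 = i then e (hw ▸ w.2) else 0
    have h1 : ∀ φ, e' ⟨i, φ⟩ = e φ := fun φ => by simp [e']
    have h2 : ∀ w, w.1 ≠ i → e' w = 0 := fun w hw => dif_neg hw
    have h3 := h e' ((key e' h2).2 (by simpa only [h1] using he)) h2 φ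
    rw [h1, h1] at h3
    exact h3

theorem free_iff (Z : RedAV p ν) (F : Set Z.X.I) (i : Z.X.I) :
    IsFree (Z.X.factor i).E (Fix Z F) ↔ IT.IsFreeOver Z F i := Iff.rfl

theorem tower_to {Z : RedAV p ν} {F : Set Z.X.I} (h : IsTower Z F) : IT.IsTower Z F := by
  induction h with
  | base S h => exact IT.IsTower.good S (good_of_base Z S h)
  | step F i _ hi h1 h2 ih => exact IT.IsTower.step F i ih hi ((neat_iff Z i).1 h1) h2

theorem towerAV {Y : RedAV p ν} (h : IsTowerAV Y) : IT.IsTowerAV Y := by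
  obtain ⟨Z, h1, h2⟩ := h
  refine ⟨Z, tower_to h1, fun i => ?_⟩
  rcases h2 i with h3 | ⟨k, ι, s, t, h3⟩
  · exact Or.inl ((ss_iff Y i).1 h3)
  · exact Or.inr ⟨k, ι, s, t, h3⟩

theorem elem_of_towerAV {Y : RedAV p ν} (h : IsTowerAV Y) :
    ∃ Z : RedAV p ν, HasElementaryRelations Z ∧ IsPowersTimesSupersingular Z Y :=
  IT.elem_of_towerAV (towerAV h)

theorem tower_criteria : TowerCriteria := by
  refine ⟨?_, fun E _ _ _ h => ?_⟩
  · intro p _ ν Z F i hF hi hss h
    have hss' : ¬ Pool.Agent.W495.TC.IsSupersingular Z i := fun h => hss ((ss_iff Z i).2 h)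
    rcases h with ⟨hirr, g, hg1, hg2⟩ | ⟨q, hq, hdeg⟩
    · exact IsTower.step F i hF hi ((neat_iff Z i).2 (IT.nondegenerate_of_irreducible Z i hirr hss'))
        (IT.free_of_irreducible Z F i hirr ⟨g, hg1, hg2⟩)
    · exact IsTower.step F i hF hi ((neat_iff Z i).2 (IT.nondegenerate_of_irreducible Z i
        (IT.irreducible_of_prime hq) hss')) (IT.free_of_prime Z F i hq hdeg)
  · rcases h with ⟨q, h⟩ | h
    · exact IT.irreducible_of_prime (q := q) h
    · exact IT.irreducible_of_cycle h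

theorem tb_tower {Ω V : Type} [Field Ω] [IsAlgClosed Ω] [CharZero Ω] {T : Homology Ω V}
    (hT : IsHomology T) {X : V} (hX : Generated T (IsTowerAbelian p ν T) X) : TB T X := by
  refine tb_generated hT (fun X hX => ?_) hX
  obtain ⟨Y, C, D, g, h1, hC, hD, hX⟩ := hX
  obtain ⟨Z, h2, h3⟩ := elem_of_towerAV h1
  exact tb_abelian hT hC (tateHolds_elem h2 h3 hC) hD hX

theorem onto_tower {Ω V : Type} [Field Ω] [IsAlgClosed Ω] [CharZero Ω] {T : Homology Ω V}
    (hT : IsHomology T) (hW : HasWeights T) {X : V}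
    (hX : Spread T (fun X => Generated T (IsTowerAbelian p ν T) X ∨ ∀ i, IsOnto T X i) X)
    (i : ℤ) : IsOnto T X i := by
  refine onto_spread hT hW (fun X h1 i => ?_) hX i
  rcases h1 with h1 | h1
  · exact ((tb_tower hT h1).iso hT i).1
  · exact h1 i

end Pool.Agent.K3h98.TW
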